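import Pool.Agent.Run7.h515.SU.Ball2

/-!
# The girth conjecture and graphs in which the balls are connected

Let `G` be a graph with `n` vertices and girth greater than `2m`, and let `H` be **any** graph with the
same vertices. `B_j(x)` is the ball of radius `j` around `x` in the metric of `G`. All balls of `G` are
connected in `H = G`. Can they be connected in a graph `H` with fewer edges?

Let all degrees of `G` be between `c n^{1/m}` and `C n^{1/m}`, as one expects for graphs of the order
in the girth conjecture.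
* For each radius `1 ≤ j < m` the answer is no, up to a constant factor: if all balls `B_j(x)` are
  connected in `H` then `H` has at least `c' n^{1+1/m}` edges, like `G` itself.
* For the radius `m` it is yes: there is a graph `H` with `O(n log n)` edges in which all balls
  `B_m(x)` are connected.

In general, if all degrees are at most `Δ` and `c_j(x)` is the number of components of `H[B_j(x)]`
then `Σ_x |B_j(x)| ≤ Σ_x c_j(x) + 3 j (Δ+1)^{j-1} e(H)` for `j < m`. Proof: two vertices `u`, `v` lie
together in at most `3 j (Δ+1)^{j-1}` balls of radius `j`: the centres `x` for which the paths to `u`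
and `v` start with the same edge come from the radius `j - 1`, and each of the others is determined by
the second vertex of the path to `u`, since otherwise there is a cycle of length at most `2j + 2`.
-/

set_option autoImplicit false

namespace Pool.Agent.Results.MP_97687e_co.BallSupports

open SimpleGraph Pool.Agent.Run7.h515.SU

theorem result :
    -- (1) the general bound for radii `j < m`
    (∀ m j Δ : ℕ, j + 1 ≤ m → ∀ (n : ℕ) (G H : SimpleGraph (Fin n)),
      ((2 * m : ℕ) : ℕ∞) < G.egirth → (∀ u, (G.neighborSet u).ncard ≤ Δ) →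
      ∑ x, {y | G.edist x y ≤ j}.ncard ≤
        ∑ x, Nat.card (H.induce {y | G.edist x y ≤ j}).ConnectedComponent +
          3 * j * (Δ + 1) ^ (j - 1) * H.edgeSet.ncard) ∧
    -- (2) graphs of the conjectured order: lower bound for all radii `1 ≤ j < m`
    (∀ m j : ℕ, 1 ≤ j → j + 1 ≤ m → ∀ c C : ℝ, 0 < c → 0 < C →
      ∃ (c' : ℝ) (n₀ : ℕ), 0 < c' ∧ ∀ n : ℕ, n₀ ≤ n → ∀ G H : SimpleGraph (Fin n),
        ((2 * m : ℕ) : ℕ∞) < G.egirth →
        (∀ u, c * (n : ℝ) ^ (1 / (m : ℝ)) ≤ (G.neighborSet u).ncard ∧
          ((G.neighborSet u).ncard : ℝ) ≤ C * (n : ℝ) ^ (1 / (m : ℝ))) →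
        (∀ x, (H.induce {y | G.edist x y ≤ j}).Preconnected) →
        c' * (n : ℝ) ^ (1 + 1 / (m : ℝ)) ≤ H.edgeSet.ncard) ∧
    -- (3) the balls of `G` are connected in `G`
    (∀ (n j : ℕ) (G : SimpleGraph (Fin n)) (x : Fin n),
      (G.induce {y | G.edist x y ≤ j}).Preconnected) ∧
    -- (4) for the radius `m` graphs with `O(n log n)` edges suffice
    (∀ m : ℕ, 1 ≤ m → ∀ c : ℝ, 0 < c → ∃ (K : ℝ) (n₀ : ℕ), ∀ n : ℕ, n₀ ≤ n →
      ∀ G : SimpleGraph (Fin n), ((2 * m : ℕ) : ℕ∞) < G.egirth →
        (∀ u, c * (n : ℝ) ^ (1 / (m : ℝ)) ≤ (G.neighborSet u).ncard) →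
        ∃ H : SimpleGraph (Fin n), (H.edgeSet.ncard : ℝ) ≤ K * n * Real.log n ∧
          ∀ x, (H.induce {y | G.edist x y ≤ m}).Preconnected) :=
  ⟨fun _ j Δ hj _ _ H hg hdeg => ball_main (girth_cycles hg) Δ
      (fun u => by rw [← nbr_card]; exact hdeg u) j hj H,
    fun m j hj1 hj c C hc hC => ball_order m j hj1 hj c C hc hC,
    fun _ j G x => ball_conn G j x,
    fun m hm c hc => ball_top m hm c hc⟩

end Pool.Agent.Results.MP_97687e_co.BallSupports
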