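import Pool.Agent.Run7.h203.SC.Girth
import Pool.Agent.Run7.h203.SC.GirthMatch

/-!
# Exact representations of dense graphs of girth greater than `2 k`

Let `G` be a graph on `n` vertices of girth greater than `2 k`, `k ≥ 2`, with at least
`c n ^ (1 + 1/k)` edges, as asked for in the question, and let `n` be large. Nothing is assumed about
the labelling of the vertices, and the diagonal entries are always arbitrary.

1. A matrix over any field which is nonzero exactly on the edges has rank at least `c' n ^ (1 - 1/k)`.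
2. If a real matrix which vanishes off the edges and has entries of absolute value in `[1, K]` on the
   edges is written as `⟨x u, y v⟩` with vectors of a Hilbert space, the product of the sums
   `∑ ‖x u‖²` and `∑ ‖y v‖²` is at least `c' n ^ (2 + 1/k) / K ^ 4`.
3. If such a matrix is a combination of equality relations `f_i u = g_i v` with coefficients `a_i`, then
   `∑ |a_i| ≥ c' n ^ (1 / (2 k)) / K ^ 2`.
4. Protocols with equality queries: two players know one vertex each; they may ask whether a label
   of the first vertex equals a label of the second one, and at the end they accept the pairs of a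
   relation without induced matchings with more than `κ` edges (for example the nonzero entries of
   a matrix of rank `κ` over some field). If a random protocol of this kind never accepts a pair of
   distinct non-adjacent vertices and accepts each edge with probability at least `p`, then the mean
   of `3 ^ cost * κ ^ (1 / (k - 1))` is at least `c' p n ^ (1/k)`. So at least
   `(1/k) log_3 n - C` queries are needed if the leaves are simple, and without queries one needs
   `κ ≥ c'' n ^ (1 - 1/k)`, as in 1.

Proofs. By a theorem of the starting files (`Pool.TH815.GR.almost_all`) half of the edges lie in an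
almost regular induced subgraph. 1: if the rank is `ρ`, then `ρ` columns have supports which cover all
nonzero rows of this part. 2, 3: singular values, and a count of closed walks of length four. 4: in a
bipartite graph of girth greater than `2 k` with all degrees larger than `d` the ends of the
nonbacktracking walks with `k - 1` steps from a vertex, each with one further step, form an
induced matching with `d ^ (k - 1)` edges. Then induction on the protocol: for a query `f u = g v`
the pairs with equal labels lie in disjoint blocks, and for the others one takes a random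
two-colouring of the labels.
-/

set_option autoImplicit false

namespace Pool.Agent.Results.MP_97687e_co.EqualityProtocols

open Run7.h203.SC

theorem result : ∀ (k : ℕ) (c : ℝ), 2 ≤ k → 0 < c → ∃ c' : ℝ, 0 < c' ∧ ∃ n₀ : ℕ,
    ∀ (V : Type) [Fintype V] (G : SimpleGraph V), n₀ ≤ Fintype.card V →
      ((2 * k : ℕ) : ℕ∞) < G.egirth →
      c * (Fintype.card V : ℝ) ^ (1 + 1 / (k : ℝ)) ≤ Nat.card G.edgeSet →
      -- (1) nonzero patterns over any field
      (∀ (F : Type) [Field F] (B : Matrix V V F), (∀ u v, u ≠ v → (B u v ≠ 0 ↔ G.Adj u v)) →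
        c' * (Fintype.card V : ℝ) ^ (1 - 1 / (k : ℝ)) ≤ B.rank) ∧
      -- (2) factorisations through a Hilbert space
      (∀ (K : ℝ) (H : Type) [NormedAddCommGroup H] [InnerProductSpace ℝ H] (x y : V → H),
        (∀ u v, G.Adj u v → 1 ≤ |inner ℝ (x u) (y v)| ∧ |inner ℝ (x u) (y v)| ≤ K) →
        (∀ u v, u ≠ v → ¬ G.Adj u v → inner ℝ (x u) (y v) = 0) →
        c' * (Fintype.card V : ℝ) ^ (2 + 1 / (k : ℝ)) ≤
          K ^ 4 * ((∑ u, ‖x u‖ ^ 2) * ∑ v, ‖y v‖ ^ 2)) ∧
      -- (3) combinations of equality relations
      (∀ (K : ℝ) (m N : ℕ) (a : Fin m → ℝ) (f g : Fin m → V → Fin N),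
        (∀ u v, G.Adj u v → 1 ≤ |∑ i, if f i u = g i v then a i else 0| ∧
          |∑ i, if f i u = g i v then a i else 0| ≤ K) →
        (∀ u v, u ≠ v → ¬ G.Adj u v → (∑ i, if f i u = g i v then a i else 0) = 0) →
        c' * (Fintype.card V : ℝ) ^ (1 / (2 * (k : ℝ))) ≤ K ^ 2 * ∑ i, |a i|) ∧
      -- (4) random protocols with equality queries and one-sided error, and induced matchings
      (∀ (p : ℝ) (N : ℕ) (T : Fin N → Prot V) (κ : Fin N → ℕ) (q : Fin N → ℝ), 0 ≤ p →
        (∀ i, 0 ≤ q i) → (∀ i, (T i).Leaves (NoMatching (κ i))) →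
        (∀ i u v, u ≠ v → (T i).Accepts u v → G.Adj u v) →
        (∀ u v, G.Adj u v → p ≤ open Classical in ∑ i, if (T i).Accepts u v then q i else 0) →
        c' * (p * (Fintype.card V : ℝ) ^ (1 / (k : ℝ))) ≤
          ∑ i, q i * (3 ^ (T i).cost * (κ i : ℝ) ^ (1 / ((k : ℝ) - 1)))) := by
  intro k c hk hc
  have hk2 : (2 : ℝ) ≤ k := by exact_mod_cast hk
  have hk0 : (0 : ℝ) < k := by linarith
  set c1 := c ^ 3 / 1048576 with hc1
  set c2 := c ^ 5 / 33554432 with hc2
  set c3 := Real.sqrt (c ^ 5 / 33554432) with hc3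
  set c4 := c / 6 with hc4
  have p1 : 0 < c1 := by positivity
  have p2 : 0 < c2 := by positivity
  have p3 : 0 < c3 := by positivity
  have p4 : 0 < c4 := by positivity
  set c' := min c1 (min c2 (min c3 c4)) with hc'
  have q1 : c' ≤ c1 := min_le_left _ _
  have q2 : c' ≤ c2 := (min_le_right _ _).trans (min_le_left _ _)
  have q3 : c' ≤ c3 := (min_le_right _ _).trans ((min_le_right _ _).trans (min_le_left _ _))
  have q4 : c' ≤ c4 := (min_le_right _ _).trans ((min_le_right _ _).trans (min_le_right _ _))
  have hexp : 0 < 1 / (k : ℝ) := by positivity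
  have hlim : Filter.Tendsto (fun n : ℕ => (n : ℝ) ^ (1 / (k : ℝ))) Filter.atTop Filter.atTop :=
    (tendsto_rpow_atTop hexp).comp tendsto_natCast_atTop_atTop
  obtain ⟨n₀, hn₀⟩ := (hlim.eventually_ge_atTop (64 / c)).exists_forall_of_atTop
  refine ⟨c', by simp only [hc', lt_min_iff]; exact ⟨p1, p2, p3, p4⟩, max n₀ 1, ?_⟩
  intro V _ G hn hG he
  rw [Pool.TH815.GR.egirth_iff] at hG
  have hn1 : (0 : ℝ) < Fintype.card V := by
    have : 1 ≤ Fintype.card V := (le_max_right _ _).trans hn
    exact_mod_cast this
  have hn2 := hn₀ (Fintype.card V) ((le_max_left _ _).trans hn)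
  refine ⟨?_, ?_, ?_, ?_⟩
  · intro F _ B hB
    have h := girth_field G hk hG c hc hn1 hn2 he F B hB
    exact le_trans (mul_le_mul_of_nonneg_right q1 (by positivity)) h
  · intro K H _ _ x y h1 h0
    have h := girth_factor G hk hG c hc hn1 hn2 he K x y h1 h0
    exact le_trans (mul_le_mul_of_nonneg_right q2 (by positivity)) h
  · intro K m N a f g h1 h0
    obtain ⟨x, y, hxy, hx, hy⟩ := equal_vectors m N a f g
    have hf := girth_factor G hk hG c hc hn1 hn2 he K x y
      (by intro u v h; rw [hxy]; exact h1 u v h) (by intro u v hne h; rw [hxy]; exact h0 u v hne h)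
    rw [← hc2] at hf
    set n : ℝ := (Fintype.card V : ℝ) with hn'
    set W := ∑ i, |a i| with hW
    have hW0 : 0 ≤ W := Finset.sum_nonneg fun _ _ => abs_nonneg _
    have hX : ∑ u, ‖x u‖ ^ 2 ≤ n * W := by
      refine (Finset.sum_le_sum fun u _ => hx u).trans (le_of_eq ?_)
      rw [Finset.sum_const, Finset.card_univ, nsmul_eq_mul]
    have hY : ∑ u, ‖y u‖ ^ 2 ≤ n * W := by
      refine (Finset.sum_le_sum fun u _ => hy u).trans (le_of_eq ?_)
      rw [Finset.sum_const, Finset.card_univ, nsmul_eq_mul]
    have hK0 : 0 ≤ K ^ 4 := by positivity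
    have h2 : c2 * n ^ (2 + 1 / (k : ℝ)) ≤ K ^ 4 * ((n * W) * (n * W)) := by
      refine hf.trans (mul_le_mul_of_nonneg_left ?_ hK0)
      exact mul_le_mul hX hY (by positivity) (by positivity)
    have h3 : n ^ (2 + 1 / (k : ℝ)) = n ^ 2 * n ^ (1 / (k : ℝ)) := by
      rw [Real.rpow_add hn1]
      congr 1
      exact_mod_cast Real.rpow_natCast n 2
    rw [h3] at h2
    have hn2' : 0 < n ^ 2 := by positivity
    have h4 : c2 * n ^ (1 / (k : ℝ)) ≤ (K ^ 2 * W) ^ 2 := by
      have : n ^ 2 * (c2 * n ^ (1 / (k : ℝ))) ≤ n ^ 2 * (K ^ 2 * W) ^ 2 := by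
        calc _ = c2 * (n ^ 2 * n ^ (1 / (k : ℝ))) := by ring
          _ ≤ _ := h2
          _ = _ := by ring
      exact le_of_mul_le_mul_left this hn2'
    have h5 := Real.sqrt_le_sqrt h4
    rw [Real.sqrt_sq (by positivity), Real.sqrt_mul (by positivity)] at h5
    have h6 : √(n ^ (1 / (k : ℝ))) = n ^ (1 / (2 * (k : ℝ))) := by
      rw [Real.sqrt_eq_rpow, ← Real.rpow_mul hn1.le]
      congr 1
      field_simp
    rw [h6, hc2, ← hc3] at h5
    exact le_trans (mul_le_mul_of_nonneg_right q3 (by positivity)) h5
  · intro p N T κ q hp hq hκ hT hpT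
    have h := girth_protocols hk G hG N T κ q hκ hq hT p (fun u v huv => by convert hpT u v huv)
    set S := ∑ i, q i * (3 ^ (T i).cost * (κ i : ℝ) ^ (1 / ((k : ℝ) - 1))) with hS
    set n : ℝ := (Fintype.card V : ℝ) with hn'
    have h1 : p * (c * (n * n ^ (1 / (k : ℝ)))) ≤ 6 * n * S := by
      have e1 : n ^ (1 + 1 / (k : ℝ)) = n * n ^ (1 / (k : ℝ)) := by
        rw [Real.rpow_add hn1, Real.rpow_one]
      rw [e1] at he
      calc p * (c * (n * n ^ (1 / (k : ℝ)))) ≤ p * Nat.card G.edgeSet :=
            mul_le_mul_of_nonneg_left he hp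
        _ ≤ 6 * n * S := h
    have h4 : p * (c * n ^ (1 / (k : ℝ))) ≤ 6 * S := by
      have : (p * (c * n ^ (1 / (k : ℝ)))) * n ≤ (6 * S) * n := by
        calc _ = p * (c * (n * n ^ (1 / (k : ℝ)))) := by ring
          _ ≤ _ := h1
          _ = _ := by ring
      exact le_of_mul_le_mul_right this hn1
    have h5 : c4 * (p * n ^ (1 / (k : ℝ))) ≤ S := by
      have h6 : c4 * (p * n ^ (1 / (k : ℝ))) = p * (c * n ^ (1 / (k : ℝ))) / 6 := by
        rw [hc4]
        ring
      rw [h6, div_le_iff₀ (by positivity)]
      linarith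
    exact le_trans (mul_le_mul_of_nonneg_right q4 (by positivity)) h5

end Pool.Agent.Results.MP_97687e_co.EqualityProtocols
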