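import Pool.Agent.Run7.h694.TN.Rect

/-!
# Graphs of large girth and tree tensor networks

The vertices are the strings of length `k` over a finite alphabet (for instance the `n = 2 ^ m` strings
of `m` bits, or the points of `F_q ^ k`). The edges are to be covered by `L` sets of adjacent pairs,
each of which is the support of a function of the `2 k` coordinates of two vertices that is computed by
a read-once tree tensor network of bond dimension at most `w` over some field: the leaves of a binary
tree read one coordinate each, and vectors of dimension `w` are combined at the inner nodes by bilinear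
maps. The trees, the assignment of the coordinates of the two vertices to the leaves, and the fields
are arbitrary, there may be cancellations, and nothing is required of the values on the diagonal.

If the graph has girth larger than four then it has at most `L (16 w ^ 4) ^ J n` edges, where
`J = O(log k)`. So the graphs on bit strings of girth larger than `2 g` with `c n ^ (1 + 1 / g)` edges
which the girth conjecture asks for need `L ≥ n ^ (1 / g - ε)` pieces as long as the bond dimension is
at most `n ^ (δ / log log n)`; the starting files `SmallWidth` and `DecisionDiagrams` treat machines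
which read the bits of the two names in one fixed linear order. Over a fixed number `k` of coordinates
(with large alphabets, as in all the constructions known for `g = 2, 3, 5`) the bond dimension has to
be at least `n ^ δ`, `δ = δ(g, k) > 0`, if `L ≤ n ^ (1 / g - ε)`.

Proof. The recursion of `Pool/Agent/R756/KT` in the starting tree (made there for graphs without
`K_{r,r}`); in a graph of girth larger than four, among any two and any three vertices there are
different ones which are not adjacent, and this gives the exponent `4`.
-/

set_option autoImplicit false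

namespace Pool.Agent.Results.MP_97687e_co.TreeTensorNetworks

open Finset Filter Topology Pool.Agent.R756.TN Run7.h694.TN

/-- `TreePiece w F`: `F` is the support of a function of pairs of strings which is computed by a tree
tensor network with bond dimension at most `w` which reads every coordinate of the two strings at most
once. `CoveredBy L w G`: the edges of `G` are covered by `L` such sets, in which all pairs of different
strings are edges. (1) The general bound. (2) The graphs of the girth conjecture on bit strings.
(3) The graphs of the girth conjecture on strings of a fixed number of letters of large alphabets. -/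
theorem result :
    (∀ (α : Type) [Fintype α] (k w L J : ℕ), 1 ≤ w → 2 * k * 2 ^ J ≤ 3 ^ J →
      ∀ G : SimpleGraph (Fin k → α), 4 < G.egirth → CoveredBy L w G →
      G.edgeSet.ncard ≤ L * ((16 * w ^ 4) ^ J * Fintype.card α ^ k)) ∧
    (∀ (g : ℕ) (c ε : ℝ), 2 ≤ g → 0 < c → 0 < ε → ∃ δ : ℝ, 0 < δ ∧ ∀ᶠ m : ℕ in atTop,
      ∀ (w L : ℕ) (G : SimpleGraph (Fin m → Bool)), ((2 * g : ℕ) : ℕ∞) < G.egirth →
      CoveredBy L w G → c * ((2 : ℝ) ^ m) ^ (1 + 1 / (g : ℝ)) ≤ G.edgeSet.ncard →
      (w : ℝ) ≤ (2 : ℝ) ^ (δ * m / Real.log m) →
      ((2 : ℝ) ^ m) ^ (1 / (g : ℝ) - ε) ≤ L) ∧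
    (∀ (g k : ℕ) (c ε : ℝ), 2 ≤ g → 1 ≤ k → 0 < c → 0 < ε → ∃ δ : ℝ, 0 < δ ∧ ∃ q0 : ℕ,
      ∀ (α : Type) [Fintype α], q0 ≤ Fintype.card α →
      ∀ (w L : ℕ) (G : SimpleGraph (Fin k → α)), ((2 * g : ℕ) : ℕ∞) < G.egirth →
      CoveredBy L w G → c * ((Fintype.card α : ℝ) ^ k) ^ (1 + 1 / (g : ℝ)) ≤ G.edgeSet.ncard →
      (w : ℝ) ≤ ((Fintype.card α : ℝ) ^ k) ^ δ →
      ((Fintype.card α : ℝ) ^ k) ^ (1 / (g : ℝ) - ε) ≤ L) := by
  have hgirth : ∀ (V : Type) (G : SimpleGraph V) (g : ℕ), 2 ≤ g → ((2 * g : ℕ) : ℕ∞) < G.egirth →
      4 < G.egirth := by
    intro V G g hg h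
    refine lt_of_le_of_lt ?_ h
    have : 4 ≤ 2 * g := by omega
    exact_mod_cast this
  refine ⟨?_, ?_, ?_⟩
  · intro α _ k w L J hw hJ G hG hc
    have h := bound (s := 2) (t := 3) (a := 2) (f := 2) (J := J) (by norm_num) (by norm_num)
      (by norm_num) (by norm_num) (by norm_num) (by norm_num) (by norm_num) (by norm_num) hw G
      (noRect_of_girth hG) hc hJ
    norm_num at h
    exact h
  · intro g c ε hg hc hε
    obtain ⟨δ, hδ, h⟩ := bits 2 3 2 2 (by norm_num) (by norm_num)
      (by norm_num) (by norm_num) (by norm_num) (by norm_num) (by norm_num) (by norm_num)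
      (1 / (g : ℝ)) c ε hc hε
    refine ⟨δ, hδ, ?_⟩
    filter_upwards [h] with m hm
    intro w L G hG hcov hE hw
    exact hm w L G (noRect_of_girth (hgirth _ G g hg hG)) hcov hE hw
  · intro g k c ε hg hk hc hε
    obtain ⟨δ, hδ, q0, h⟩ := coords 2 3 2 2 (by norm_num) (by norm_num)
      (by norm_num) (by norm_num) (by norm_num) (by norm_num) (by norm_num) (by norm_num) k hk
      (1 / (g : ℝ)) c ε hc hε
    refine ⟨δ, hδ, q0, ?_⟩
    intro α _ hα w L G hG hcov hE hw
    exact h α hα w L G (noRect_of_girth (hgirth _ G g hg hG)) hcov hE hw

end Pool.Agent.Results.MP_97687e_co.TreeTensorNetworks
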